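import Pool.Agent.W154.SC.Poly

set_option autoImplicit false
set_option linter.all false

namespace Pool.Agent.W154.SC

open Pool.Agent.Helper741 hiding alt
open Pool.Agent.W236.SC
open CoxeterSystem

variable {B : Type*} [Fintype B] [DecidableEq B] {M : CoxeterMatrix B}
variable {W : Type*} [Group W] (cs : CoxeterSystem M W)

lemma exists_first (P : ℕ → Prop) (n : ℕ) (h : ∃ g, g < n ∧ P g) :
    ∃ g, g < n ∧ P g ∧ ∀ k, k < g → ¬ P k := by
  classical
  have h' : ∃ g, g < n ∧ P g := h
  refine ⟨Nat.find h', (Nat.find_spec h').1, (Nat.find_spec h').2, fun k hk hPk => ?_⟩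
  exact Nat.find_min h' hk ⟨lt_trans hk (Nat.find_spec h').1, hPk⟩

lemma exists_last (P : ℕ → Prop) (n : ℕ) (h : ∃ g, g < n ∧ P g) :
    ∃ g, g < n ∧ P g ∧ ∀ k, g < k → k < n → ¬ P k := by
  classical
  obtain ⟨g0, hg0, hP0⟩ := h
  have hne : ((Finset.range n).filter P).Nonempty := ⟨g0, by simp [hg0, hP0]⟩
  refine ⟨((Finset.range n).filter P).max' hne, ?_, ?_, ?_⟩
  · have := Finset.max'_mem _ hne
    rw [Finset.mem_filter, Finset.mem_range] at this
    exact this.1
  · have := Finset.max'_mem _ hne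
    rw [Finset.mem_filter, Finset.mem_range] at this
    exact this.2
  · intro k hk hkn hPk
    have := Finset.le_max' ((Finset.range n).filter P) k (by simp [hkn, hPk])
    omega

lemma isRt_rt (q : ℕ → B) (U : Finset ℕ) (k : ℕ) : IsRt cs (rt cs q U k) := ⟨_, _, rfl⟩

/-- positivity of a root outside the plane does not depend on the element of the dihedral group -/
lemma nonPsi (hB : BaseF cs) (hPl : S_PLANE cs) {b : W} {s t : B} (hst : s ≠ t) (x : B → ℝ)
    (hx : IsRt cs x) (w1 w2 : W) (h1 : w1 ∈ Subgroup.closure {cs.simple s, cs.simple t})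
    (h2 : w2 ∈ Subgroup.closure {cs.simple s, cs.simple t})
    (hpos : 0 ≤ geo cs (b * w1)⁻¹ x)
    (hnp : ¬ ∀ i, i ≠ s → i ≠ t → geo cs b⁻¹ x i = 0) :
    0 ≤ geo cs (b * w2)⁻¹ x := by
  push Not at hnp
  obtain ⟨i, his, hit, hne⟩ := hnp
  rw [mul_inv_rev, map_mul, Module.End.mul_apply] at hpos ⊢
  have e1 := (hPl s t hst w1⁻¹ (Subgroup.inv_mem _ h1)).1 (geo cs b⁻¹ x) i his hit
  have e2 := (hPl s t hst w2⁻¹ (Subgroup.inv_mem _ h2)).1 (geo cs b⁻¹ x) i his hit
  have h3 : 0 ≤ geo cs b⁻¹ x i := by
    have := hpos i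
    rw [e1] at this
    exact this
  apply hB.rt_pos _ (hB.rt_geo _ _ (hB.rt_geo _ _ hx)) i
  rw [e2]
  exact lt_of_le_of_ne h3 (Ne.symm hne)

lemma closure_swap (s t : B) :
    Subgroup.closure {cs.simple s, cs.simple t} = Subgroup.closure {cs.simple t, cs.simple s} := by
  rw [Set.pair_comm]

/-- the reflected root is in the plane iff the root is -/
lemma psi_sub {b : W} {s t z : B} (hz : z = s ∨ z = t) (x : B → ℝ) (c : ℝ)
    (h : ∀ i, i ≠ s → i ≠ t → geo cs b⁻¹ (x - c • geo cs b (ee z)) i = 0) :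
    ∀ i, i ≠ s → i ≠ t → geo cs b⁻¹ x i = 0 := by
  intro i his hit
  have h1 := h i his hit
  rw [map_sub, map_smul, geo_inv_apply] at h1
  have h2 : (ee z : B → ℝ) i = 0 := by
    apply ee_apply_ne
    rcases hz with rfl | rfl <;> assumption
  simp only [Pi.sub_apply, Pi.smul_apply, smul_eq_mul] at h1
  rw [h2] at h1
  linarith

lemma nonpos_of_neg_ee_contra (i : B) (h : (0 : B → ℝ) ≤ - ee i) : False := by
  have := h i
  simp [ee] at this
  linarith

variable (hB : BaseF cs) (hR : S_ROOTS cs) (hF : S_FLIP cs) (hFR : S_FLIPR cs) (hC : S_CROSS cs)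
  (hKEX : S_KEX cs) (hKUN : S_KUN cs) (hW : S_WEAK cs) (hP : S_POLY cs) (hPl : S_PLANE cs)
  (hA : S_ALTF cs) (hCo : S_COMMON cs) (hS : S_SIMP cs)

include hB hR hF hFR hC hKEX hKUN hW hP hPl hA hCo hS

/-- SC-PF, first part -/
theorem pf1 : S_PF1 cs := by
  intro n q ω b s t U U' hAlt hst hM hbs hbt htop hU hUs hU'
  have hMts : M t s ≠ 0 := by rwa [M.symmetric t s]
  have hst' : t ≠ s := hst.symm
  obtain ⟨P1, P2, P3, P4⟩ := hP.1 b s t hst hM hbs hbt
  obtain ⟨Q1, Q2, Q3, Q4⟩ := hP.1 b t s hst' hMts hbt hbs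
  obtain ⟨hW1, hW2, hW3, hW4, hW5, hW6, hW7⟩ := hW
  obtain ⟨A1, A2, A3, A4, A5, A6⟩ := hA t s hst' hMts
  have hbt1 : b * alt cs t s 1 = b * cs.simple t := by simp [alt]
  -- `b t ≤ ω`
  have hbtω : WLe cs (b * cs.simple t) ω := by
    have h1 := Q2 1 (M t s) (by omega) le_rfl
    rw [hbt1, ← M.symmetric s t] at h1
    have h2 : alt cs t s (M s t) = alt cs s t (M s t) := P3.symm
    rw [h2] at h1
    exact hW3 _ _ _ h1 htop
  have hbω : WLe cs b ω := by
    have h1 := P2 0 (M s t) (by omega) le_rfl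
    have e : b * alt cs s t 0 = b := by simp [alt]
    rw [e] at h1
    exact hW3 _ _ _ h1 htop
  -- the facet of the top
  obtain ⟨I1, hI1⟩ := hKEX n q ω _ ⟨U, hU.fac⟩ htop
  have hSame := hCo n q ω b s t hst hM hbs hbt htop (M s t) le_rfl U I1 hU hI1
  have hSimp := (hS n q ω b s t U I1 hAlt hst hM hbs hbt htop hU hI1 hSame).1
  have hroot : ∀ k, k < n → k ∉ U → PsiAt cs b s t q U k → rt cs q U k = geo cs b (ee t) := by
    intro k hk hkU hpsi
    rcases hSimp k hk hkU hpsi with h | h
    · exfalso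
      have h1 := hUs.pos k hk hkU
      rw [h, mul_inv_rev, cs.inv_simple, map_mul, Module.End.mul_apply, geo_inv_apply, geo_simple,
        sg_ee_self] at h1
      exact nonpos_of_neg_ee_contra s h1
    · exact h
  have hβpos : 0 ≤ geo cs b (ee t) := (geo_nonneg_iff cs b t).2 hbt
  -- all plane roots of `U'`
  have hclaim : ∀ k, k < n → k ∉ U' → PsiAt cs b s t q U' k →
      rt cs q U' k = - geo cs b (ee t) := by
    by_cases hex : ∃ g, g < n ∧ (g ∉ U ∧ rt cs q U g = geo cs b (ee t))
    · obtain ⟨g, hgn, ⟨hgU, hg⟩, hfirst⟩ := exists_first _ n hex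
      have hωβ : geo cs ω⁻¹ (geo cs b (ee t)) ≤ 0 := (hW7 b ω t hbt hbω).1 hbtω
      obtain ⟨g', hgg', hg'n, hg'U, hg', hK⟩ := (hC n q ω b t U hbt).2.1 hU g hgn hgU hg
        (fun k hk hkU hkr => hfirst k hk ⟨hkU, hkr⟩) hωβ
      have hUU : U' = insert g (U.erase g') := hKUN n q ω _ _ _ hU' hK
      obtain ⟨-, F2, F3, F4, -⟩ := hF n q ω U g g' hU.fac hgg' hgU hg'U (hg.trans hg'.symm)
      rw [← hUU] at F2 F3 F4
      intro k hk hkU' hpsi
      have hkg : k ≠ g := by
        rintro rfl
        apply hkU'; rw [hUU]; simp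
      have hkU : k = g' ∨ k ∉ U := by
        by_contra hcon
        push Not at hcon
        apply hkU'
        rw [hUU]
        simp [hcon.1, hcon.2]
      have hnorm : frm M (geo cs b (ee t)) (geo cs b (ee t)) = 2 :=
        hB.rt_norm _ (hB.rt_geo _ _ (hB.rt_ee t))
      rcases lt_trichotomy k g with h1 | h1 | h1
      · exfalso
        have hkU2 : k ∉ U := by
          rcases hkU with h | h
          · omega
          · exact h
        have e := F2 k h1.le
        have hpsi2 : PsiAt cs b s t q U k := by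
          unfold PsiAt at hpsi ⊢; rwa [e] at hpsi
        exact hfirst k h1 ⟨hkU2, hroot k hk hkU2 hpsi2⟩
      · exact absurd h1 hkg
      · rcases lt_trichotomy k g' with h2 | h2 | h2
        · have hkU2 : k ∉ U := by
            rcases hkU with h | h
            · omega
            · exact h
          have e := F4 k h1 h2.le
          rw [hg] at e
          have hpsi2 : PsiAt cs b s t q U k := by
            unfold PsiAt at hpsi ⊢
            rw [e] at hpsi
            exact psi_sub cs (Or.inr rfl) _ _ hpsi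
          have h3 := hroot k hk hkU2 hpsi2
          rw [e, h3, hnorm, two_smul]
          abel
        · subst h2
          have e := F4 k h1 le_rfl
          rw [hg, hg', hnorm, two_smul] at e
          rw [e]; abel
        · exfalso
          have hkU2 : k ∉ U := by
            rcases hkU with h | h
            · omega
            · exact h
          have e := F3 k h2
          have hpsi2 : PsiAt cs b s t q U k := by
            unfold PsiAt at hpsi ⊢; rwa [e] at hpsi
          have h3 := hroot k hk hkU2 hpsi2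
          exact (hR n q ω U hU.fac).2.2.2.2.2 g' hg'U k h2 hk (h3.trans hg'.symm)
    · push Not at hex
      have hK := (hC n q ω b t U hbt).1 hU (fun k hk hkU => hex k hk hkU)
      have hUU : U' = U := hKUN n q ω _ _ _ hU' hK
      intro k hk hkU' hpsi
      exfalso
      rw [hUU] at hkU' hpsi
      exact hex k hk hkU' (hroot k hk hkU' hpsi)
  intro k hk1 hkm
  rw [← M.symmetric t s] at hkm
  refine ⟨hU'.fac, ?_⟩
  intro j hj hjU'
  by_cases hpsi : PsiAt cs b s t q U' j
  · rw [hclaim j hj hjU' hpsi, mul_inv_rev, map_mul, Module.End.mul_apply, map_neg, geo_inv_apply,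
      map_neg]
    exact neg_nonneg.2 (A3 k hk1 hkm)
  · have hpos := hU'.pos j hj hjU'
    rw [← hbt1] at hpos
    refine nonPsi cs hB hPl hst (rt cs q U' j) (isRt_rt cs q U' j) (alt cs t s 1) (alt cs t s k)
      ?_ ?_ hpos hpsi
    · rw [closure_swap]; exact A1 1
    · rw [closure_swap]; exact A1 k

/-- SC-PF, second part -/
theorem pf2 : S_PF2 cs := by
  intro n q ω b s t U U' hAlt hst hM hbs hbt htop hU hUm hU'
  have hMts : M t s ≠ 0 := by rwa [M.symmetric t s]
  have hst' : t ≠ s := hst.symm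
  obtain ⟨P1, P2, P3, P4⟩ := hP.1 b s t hst hM hbs hbt
  obtain ⟨Q1, Q2, Q3, Q4⟩ := hP.1 b t s hst' hMts hbt hbs
  obtain ⟨hW1, hW2, hW3, hW4, hW5, hW6, hW7⟩ := hW
  obtain ⟨A1, A2, A3, A4, A5, A6⟩ := hA t s hst' hMts
  obtain ⟨B1, B2, B3, B4, B5, B6⟩ := hA s t hst hM
  have hm : M t s = M s t := M.symmetric t s
  rw [hm] at A2 A3 A4 A5 A6 Q1 Q2 Q3 Q4
  obtain ⟨m', hm'⟩ : ∃ m', M s t = m' + 1 := ⟨M s t - 1, by omega⟩
  have hbω : WLe cs b ω := by
    have h1 := P2 0 (M s t) (by omega) le_rfl
    have e : b * alt cs s t 0 = b := by simp [alt]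
    rw [e] at h1
    exact hW3 _ _ _ h1 htop
  obtain ⟨I0, hI0⟩ := hKEX n q ω b ⟨U, hU.fac⟩ hbω
  have hSame := hCo n q ω b s t hst hM hbs hbt htop (M s t) le_rfl I0 U hI0 hU
  have hSimp := (hS n q ω b s t I0 U hAlt hst hM hbs hbt htop hI0 hU hSame).2
  have hPsiEq : ∀ k, k < n → (PsiAt cs b s t q I0 k ↔ PsiAt cs b s t q U k) :=
    fun k hk => (hSame k hk).1
  have hroot : ∀ k, k < n → k ∉ U → PsiAt cs b s t q U k → rt cs q U k = - geo cs b (ee s) := by
    intro k hk hkU hpsi
    rcases hSimp k hk hkU hpsi with h | h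
    · exact h
    · exfalso
      have h1 := hUm.pos k hk hkU
      rw [h, mul_inv_rev, map_mul, Module.End.mul_apply, map_neg, geo_inv_apply, map_neg, ← B6,
        geo_inv_apply] at h1
      exact nonpos_of_neg_ee_contra _ h1
  have hβpos : 0 ≤ geo cs b (ee s) := (geo_nonneg_iff cs b s).2 hbs
  have hnorm : frm M (geo cs b (ee s)) (geo cs b (ee s)) = 2 :=
    hB.rt_norm _ (hB.rt_geo _ _ (hB.rt_ee s))
  -- the element below the top on the other side
  set v' := b * alt cs t s (M s t - 1) with hv'
  set z := nx t s (M s t - 1) with hz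
  have hvz : v' * cs.simple z = b * alt cs s t (M s t) := by
    have e : alt cs t s (M s t) = alt cs t s (M s t - 1) * cs.simple z := by
      have : M s t = (M s t - 1) + 1 := by omega
      conv_lhs => rw [this]
      rfl
    rw [P3, e, hv', mul_assoc]
  have hvez : geo cs v' (ee z) = geo cs b (ee s) := by
    rw [hv', map_mul, Module.End.mul_apply]
    rw [show geo cs (alt cs t s (M s t - 1)) (ee z) = ee s from A6]
  have hvlen : cs.length v' < cs.length (v' * cs.simple z) := by
    rw [hvz, P1 _ le_rfl, hv', Q1 _ (by omega)]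
    omega
  have hKtop : IsK cs n q ω (v' * cs.simple z) U := by rw [hvz]; exact hU
  -- all plane roots of `U'`
  have hclaim : ∀ k, k < n → k ∉ U' → PsiAt cs b s t q U' k →
      rt cs q U' k = geo cs b (ee s) := by
    by_cases hex : ∃ g, g < n ∧ (g ∉ U ∧ rt cs q U g = - geo cs b (ee s))
    · obtain ⟨g', hg'n, ⟨hg'U, hg'⟩, hlast⟩ := exists_last _ n hex
      obtain ⟨g, hgg', hgU, hg, hK⟩ := (hC n q ω v' z U hvlen).2.2.2 hKtop g' hg'n hg'U
        (by rw [hvez]; exact hg')
        (by
          rw [hvez]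
          exact fun k hk hkn hkU hkr => hlast k hk hkn ⟨hkU, hkr⟩)
      rw [hvez] at hg
      have hUU : U' = insert g' (U.erase g) := hKUN n q ω _ _ _ hU' hK
      obtain ⟨-, F2, F3, F4⟩ := hFR n q ω U g g' hU.fac hgg' hg'n hgU hg'U (by rw [hg', hg])
      rw [← hUU] at F2 F3 F4
      obtain ⟨-, -, R3, -, R5, -⟩ := hR n q ω U hU.fac
      intro k hk hkU' hpsi
      have hkg : k ≠ g' := by
        rintro rfl
        apply hkU'; rw [hUU]; simp
      have hkU : k = g ∨ k ∉ U := by
        by_contra hcon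
        push Not at hcon
        apply hkU'
        rw [hUU]
        simp [hcon.1, hcon.2]
      rcases lt_trichotomy k g with h1 | h1 | h1
      · exfalso
        have hkU2 : k ∉ U := by
          rcases hkU with h | h
          · omega
          · exact h
        have e := F2 k h1.le
        have hpsi2 : PsiAt cs b s t q U k := by
          unfold PsiAt at hpsi ⊢; rwa [e] at hpsi
        have h3 := hroot k hk hkU2 hpsi2
        obtain ⟨j, hjU, hjk, hj⟩ := R5 k hk hkU2 (by rw [h3]; exact neg_nonpos.2 hβpos)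
        rw [h3, neg_neg] at hj
        have := R3 j hjU g hgU (hj.trans hg.symm)
        omega
      · subst h1
        rw [F2 k le_rfl, hg]
      · rcases lt_trichotomy k g' with h2 | h2 | h2
        · have hkU2 : k ∉ U := by
            rcases hkU with h | h
            · omega
            · exact h
          have e := F4 k h1 h2.le
          rw [hg] at e
          have hpsi2 : PsiAt cs b s t q U k := by
            unfold PsiAt at hpsi ⊢
            rw [e] at hpsi
            exact psi_sub cs (Or.inl rfl) _ _ hpsi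
          have h3 := hroot k hk hkU2 hpsi2
          have h4 : frm M (geo cs b (ee s)) (-geo cs b (ee s)) = -2 := by
            have := hB.frm_smul (-1) (geo cs b (ee s)) (geo cs b (ee s))
            rw [neg_one_smul, hnorm] at this
            rw [this]; norm_num
          rw [e, h3, h4]
          rw [neg_smul, two_smul]
          abel
        · exact absurd h2 hkg
        · exfalso
          have hkU2 : k ∉ U := by
            rcases hkU with h | h
            · omega
            · exact h
          have e := F3 k h2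
          have hpsi2 : PsiAt cs b s t q U k := by
            unfold PsiAt at hpsi ⊢; rwa [e] at hpsi
          exact hlast k h2 hk ⟨hkU2, hroot k hk hkU2 hpsi2⟩
    · push Not at hex
      have hK := (hC n q ω v' z U hvlen).2.2.1 hKtop (by
        rw [hvez]; exact fun k hk hkU => hex k hk hkU)
      have hUU : U' = U := hKUN n q ω _ _ _ hU' hK
      intro k hk hkU' hpsi
      exfalso
      rw [hUU] at hkU' hpsi
      exact hex k hk hkU' (hroot k hk hkU' hpsi)
  intro k hkm
  refine ⟨hU'.fac, ?_⟩
  intro j hj hjU'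
  by_cases hpsi : PsiAt cs b s t q U' j
  · rw [hclaim j hj hjU' hpsi, mul_inv_rev, map_mul, Module.End.mul_apply, geo_inv_apply]
    exact A4 k (by omega)
  · have hpos := hU'.pos j hj hjU'
    rw [hv'] at hpos
    refine nonPsi cs hB hPl hst (rt cs q U' j) (isRt_rt cs q U' j) (alt cs t s (M s t - 1))
      (alt cs t s k) ?_ ?_ hpos hpsi
    · rw [closure_swap]; exact A1 _
    · rw [closure_swap]; exact A1 k

end Pool.Agent.W154.SC
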