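import Pool.Agent.W236.SC.Defs2

set_option autoImplicit false

namespace Pool.Agent.W154.SC

open Pool.Agent.Helper741 hiding alt
open Pool.Agent.W236.SC
open CoxeterSystem

variable {B : Type*} [Fintype B] [DecidableEq B] {M : CoxeterMatrix B}
variable {W : Type*} [Group W] (cs : CoxeterSystem M W)

lemma supp_decomp {s t : B} (hst : s ≠ t) (x : B → ℝ) (h : ∀ i, i ≠ s → i ≠ t → x i = 0) :
    x = x s • ee s + x t • ee t := by
  funext i
  by_cases h1 : i = s
  · subst h1
    simp [ee, Pi.single_apply, hst]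
  · by_cases h2 : i = t
    · subst h2
      simp [ee, Pi.single_apply, h1]
    · simp [ee, Pi.single_apply, h1, h2, h i h1 h2]

lemma ee_apply_ne {i j : B} (h : j ≠ i) : (ee i : B → ℝ) j = 0 := by
  simp [ee, Pi.single_apply, h]

lemma ee_apply_self (i : B) : (ee i : B → ℝ) i = 1 := by
  simp [ee]

/-- the next letter -/
abbrev nx (s t : B) (k : ℕ) : B := if Even k then s else t

lemma nx_or (s t : B) (k : ℕ) : nx s t k = s ∨ nx s t k = t := by
  unfold nx; split_ifs <;> simp

lemma alt_succ (s t : B) (k : ℕ) : alt cs s t (k + 1) = alt cs s t k * cs.simple (nx s t k) := rfl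

/-- image under `b` of a nonnegative vector supported in the plane -/
lemma plane_image_nonneg (b : W) {s t : B} (hst : s ≠ t) (hbs : 0 ≤ geo cs b (ee s))
    (hbt : 0 ≤ geo cs b (ee t)) (x : B → ℝ) (hx : 0 ≤ x) (h : ∀ i, i ≠ s → i ≠ t → x i = 0) :
    0 ≤ geo cs b x := by
  rw [supp_decomp hst x h, map_add, map_smul, map_smul]
  exact add_nonneg (smul_nonneg (hx s) hbs) (smul_nonneg (hx t) hbt)

lemma alt_supp (hP : S_PLANE cs) (hA : S_ALTF cs) {s t : B} (hst : s ≠ t) (hM : M s t ≠ 0) (k : ℕ) :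
    ∀ i, i ≠ s → i ≠ t → geo cs (alt cs s t k) (ee (nx s t k)) i = 0 := by
  intro i his hit
  have h1 := (hP s t hst _ ((hA s t hst hM).1 k)).1 (ee (nx s t k)) i his hit
  rw [h1]
  apply ee_apply_ne
  rcases nx_or s t k with h | h <;> rw [h] <;> assumption

lemma asc_step (hP : S_PLANE cs) (hA : S_ALTF cs) (b : W) {s t : B} (hst : s ≠ t) (hM : M s t ≠ 0)
    (hs : cs.length b < cs.length (b * cs.simple s)) (ht : cs.length b < cs.length (b * cs.simple t))
    (k : ℕ) (hk : k < M s t) : 0 ≤ geo cs (b * alt cs s t k) (ee (nx s t k)) := by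
  rw [map_mul, Module.End.mul_apply]
  exact plane_image_nonneg cs b hst ((geo_nonneg_iff cs b s).2 hs) ((geo_nonneg_iff cs b t).2 ht) _
    ((hA s t hst hM).2.1 k hk) (alt_supp cs hP hA hst hM k)

lemma length_succ (v : W) (i : B) (h : 0 ≤ geo cs v (ee i)) :
    cs.length (v * cs.simple i) = cs.length v + 1 := by
  have h1 := (geo_nonneg_iff cs v i).1 h
  rcases cs.length_mul_simple v i with h2 | h2 <;> omega

lemma wle_step (v : W) (i : B) (h : cs.length (v * cs.simple i) = cs.length v + 1) :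
    WLe cs v (v * cs.simple i) := by
  unfold WLe
  rw [inv_mul_cancel_left, cs.length_simple, h]

lemma alt_eq_word (s t : B) (k : ℕ) : alt cs s t k = (cs.wordProd (alternatingWord t s k))⁻¹ := by
  induction k with
  | zero => simp [alt, alternatingWord]
  | succ k ih =>
    rw [alt_succ, ih, alternatingWord_succ', cs.wordProd_cons, mul_inv_rev, cs.inv_simple]

lemma alt_braid (s t : B) : alt cs s t (M s t) = alt cs t s (M s t) := by
  rw [alt_eq_word, alt_eq_word]
  have h := cs.wordProd_braidWord_eq s t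
  unfold braidWord at h
  rw [M.symmetric t s] at h
  rw [h]

/-- description of the inversions of `b alt_k` -/
lemma inv_alt (hB : BaseF cs) (hP : S_PLANE cs) (hA : S_ALTF cs) (b : W) {s t : B} (hst : s ≠ t)
    (hM : M s t ≠ 0) (k : ℕ) (hk : k ≤ M s t) (β : B → ℝ) (hβ : IsRt cs β)
    (hinv : geo cs (b * alt cs s t k)⁻¹ β ≤ 0) :
    geo cs b⁻¹ β ≤ 0 ∨ ∃ p q : ℝ, 0 ≤ p ∧ 0 ≤ q ∧
      β = p • geo cs b (ee s) + q • geo cs b (ee t) := by
  induction k with
  | zero =>
    left
    simpa [alt] using hinv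
  | succ k ih =>
    set v := b * alt cs s t k with hv
    have e : b * alt cs s t (k + 1) = v * cs.simple (nx s t k) := by
      rw [alt_succ, ← mul_assoc]
    rw [e, mul_inv_rev, cs.inv_simple, map_mul, Module.End.mul_apply] at hinv
    set γ := geo cs v⁻¹ β with hγ
    have hγr : IsRt cs γ := hB.rt_geo _ _ hβ
    rcases hB.rt_sign γ hγr with h | h
    · by_cases hne : γ = ee (nx s t k)
      · right
        have hx0 := (hA s t hst hM).2.1 k (by omega)
        have hβ2 : β = geo cs b (geo cs (alt cs s t k) (ee (nx s t k))) := by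
          rw [← hne, hγ, ← Module.End.mul_apply, ← map_mul, ← hv, geo_apply_inv]
        refine ⟨(geo cs (alt cs s t k) (ee (nx s t k))) s, (geo cs (alt cs s t k) (ee (nx s t k))) t,
          hx0 s, hx0 t, ?_⟩
        rw [hβ2]
        conv_lhs => rw [supp_decomp hst _ (alt_supp cs hP hA hst hM k)]
        rw [map_add, map_smul, map_smul]
      · exfalso
        have h2 := hB.rt_simple γ _ hγr h hne
        exact hB.rt_ne _ (hB.rt_geo (cs.simple (nx s t k)) _ hγr) (le_antisymm hinv h2)
    · exact ih (by omega) h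

theorem poly1 (hB : BaseF cs) (hW : S_WEAK cs) (hP : S_PLANE cs) (hA : S_ALTF cs) (b : W) (s t : B)
    (hst : s ≠ t) (hM : M s t ≠ 0) (hs : cs.length b < cs.length (b * cs.simple s))
    (ht : cs.length b < cs.length (b * cs.simple t)) :
    (∀ k, k ≤ M s t → cs.length (b * alt cs s t k) = cs.length b + k) ∧
    (∀ j k, j ≤ k → k ≤ M s t → WLe cs (b * alt cs s t j) (b * alt cs s t k)) ∧
    alt cs s t (M s t) = alt cs t s (M s t) ∧
    (∀ u, WLe cs (b * cs.simple s) u → WLe cs (b * cs.simple t) u →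
      WLe cs (b * alt cs s t (M s t)) u) := by
  obtain ⟨hW1, hW2, hW3, -⟩ := hW
  have hstep : ∀ k, k < M s t →
      cs.length (b * alt cs s t (k + 1)) = cs.length (b * alt cs s t k) + 1 := by
    intro k hk
    rw [alt_succ, ← mul_assoc]
    exact length_succ cs _ _ (asc_step cs hP hA b hst hM hs ht k hk)
  refine ⟨?_, ?_, alt_braid cs s t, ?_⟩
  · intro k
    induction k with
    | zero => intro _; simp [alt]
    | succ k ih =>
      intro hk
      rw [hstep k (by omega), ih (by omega)]
      ring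
  · intro j k hjk
    induction k, hjk using Nat.le_induction with
    | base => intro _; exact hW2 _
    | succ k hjk ih =>
      intro hk
      apply hW3 _ _ _ (ih (by omega))
      have h1 := hstep k (by omega)
      rw [alt_succ, ← mul_assoc] at h1 ⊢
      exact wle_step cs _ _ h1
  · intro u hu1 hu2
    rw [hW1]
    intro β hβ hβ0 hinv
    rcases inv_alt cs hB hP hA b hst hM (M s t) le_rfl β hβ hinv with h | ⟨p, q, hp, hq, hpq⟩
    · have hb : WLe cs b u := by
        refine hW3 _ _ _ (wle_step cs b s ?_) hu1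
        rcases cs.length_mul_simple b s with h2 | h2 <;> omega
      exact (hW1 b u).1 hb β hβ hβ0 h
    · have key : ∀ i, cs.length b < cs.length (b * cs.simple i) → WLe cs (b * cs.simple i) u →
          geo cs u⁻¹ (geo cs b (ee i)) ≤ 0 := by
        intro i hi hui
        apply (hW1 _ _).1 hui _ (hB.rt_geo _ _ (hB.rt_ee i)) ((geo_nonneg_iff cs b i).2 hi)
        rw [mul_inv_rev, cs.inv_simple, map_mul, Module.End.mul_apply, geo_inv_apply, geo_simple,
          sg_ee_self]
        exact neg_nonpos.2 (ee_nonneg i)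
      rw [hpq, map_add, map_smul, map_smul]
      exact add_nonpos (smul_nonpos_of_nonneg_of_nonpos hp (key s hs hu1))
        (smul_nonpos_of_nonneg_of_nonpos hq (key t ht hu2))

theorem poly2 (hB : BaseF cs) (hW : S_WEAK cs) (hP : S_PLANE cs) (hA : S_ALTF cs) (z : W) (s t : B)
    (hst : s ≠ t) (hM : M s t ≠ 0) (hs : cs.length (z * cs.simple s) < cs.length z)
    (ht : cs.length (z * cs.simple t) < cs.length z) :
    ∃ b, cs.length b < cs.length (b * cs.simple s) ∧ cs.length b < cs.length (b * cs.simple t) ∧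
      z = b * alt cs s t (M s t) ∧
      ∀ u, WLe cs u (z * cs.simple s) → WLe cs u (z * cs.simple t) → WLe cs u b := by
  obtain ⟨hW1, hW2, hW3, -⟩ := hW
  set D := Subgroup.closure {cs.simple s, cs.simple t} with hD
  have hsD : cs.simple s ∈ D := Subgroup.subset_closure (by simp)
  have htD : cs.simple t ∈ D := Subgroup.subset_closure (by simp)
  -- choice of the minimal element of the coset
  obtain ⟨d, hd, hmin⟩ : ∃ d ∈ D, ∀ d' ∈ D, cs.length (z * d) ≤ cs.length (z * d') := by
    classical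
    have hex : ∃ n, ∃ d ∈ D, cs.length (z * d) = n := ⟨_, 1, D.one_mem, rfl⟩
    obtain ⟨d, hd, hdn⟩ := Nat.find_spec hex
    refine ⟨d, hd, fun d' hd' => ?_⟩
    rw [hdn]
    exact Nat.find_min' hex ⟨d', hd', rfl⟩
  set b := z * d with hb
  have hbs : cs.length b < cs.length (b * cs.simple s) := by
    have h1 := hmin (d * cs.simple s) (D.mul_mem hd hsD)
    rw [← mul_assoc, ← hb] at h1
    rcases cs.length_mul_simple b s with h2 | h2 <;> omega
  have hbt : cs.length b < cs.length (b * cs.simple t) := by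
    have h1 := hmin (d * cs.simple t) (D.mul_mem hd htD)
    rw [← mul_assoc, ← hb] at h1
    rcases cs.length_mul_simple b t with h2 | h2 <;> omega
  have hbs0 := (geo_nonneg_iff cs b s).2 hbs
  have hbt0 := (geo_nonneg_iff cs b t).2 hbt
  have hz : z = b * d⁻¹ := by rw [hb, mul_inv_cancel_right]
  have hdi : d⁻¹ ∈ D := D.inv_mem hd
  -- d⁻¹ e_s ≤ 0
  have key : ∀ i, (i = s ∨ i = t) → geo cs z (ee i) ≤ 0 → geo cs d⁻¹ (ee i) ≤ 0 := by
    intro i hi hzi
    rcases hB.rt_sign _ (hB.rt_geo d⁻¹ _ (hB.rt_ee i)) with h | h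
    · exfalso
      have h1 : 0 ≤ geo cs b (geo cs d⁻¹ (ee i)) := by
        apply plane_image_nonneg cs b hst hbs0 hbt0 _ h
        intro j hjs hjt
        rw [(hP s t hst _ hdi).1 _ j hjs hjt]
        apply ee_apply_ne
        rcases hi with rfl | rfl <;> assumption
      rw [← Module.End.mul_apply, ← map_mul, ← hz] at h1
      exact geo_ee_ne_zero cs z i (le_antisymm hzi h1)
    · exact h
  have hds := key s (Or.inl rfl) ((geo_nonpos_iff cs z s).2 hs)
  have hdt := key t (Or.inr rfl) ((geo_nonpos_iff cs z t).2 ht)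
  -- the longest element
  obtain ⟨hA1, hA2, hA3, hA4, hA5, hA6⟩ := hA s t hst hM
  set w := alt cs s t (M s t) with hw
  have hwD : w ∈ D := hA1 _
  have hws : geo cs w⁻¹ (ee s) ≤ 0 := hA3 (M s t) (by omega) le_rfl
  have hwt : geo cs w⁻¹ (ee t) ≤ 0 := hA5
  obtain ⟨k1, k2, k3, k4⟩ := (hP s t hst w⁻¹ (D.inv_mem hwD)).2 hws hwt
  rw [inv_inv] at k3 k4
  have hx1 : d⁻¹ * w⁻¹ = 1 := by
    apply eq_one_of_geo cs
    intro i
    rw [map_mul, Module.End.mul_apply]
    have aux : ∀ y : B → ℝ, (-y = ee s ∨ -y = ee t) → 0 ≤ geo cs d⁻¹ y := by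
      intro y hy
      have : geo cs d⁻¹ y = - geo cs d⁻¹ (-y) := by rw [map_neg, neg_neg]
      rw [this]
      rcases hy with h | h
      · rw [h]; exact neg_nonneg.2 hds
      · rw [h]; exact neg_nonneg.2 hdt
    by_cases his : i = s
    · subst his; exact aux _ k1
    · by_cases hit : i = t
      · subst hit; exact aux _ k2
      · rw [← Module.End.mul_apply, ← map_mul]
        apply hB.rt_pos _ (hB.rt_geo _ _ (hB.rt_ee i)) i
        rw [(hP s t hst _ (D.mul_mem hdi (D.inv_mem hwD))).1 _ i his hit, ee_apply_self]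
        norm_num
  have hwd : d⁻¹ = w := by
    rw [mul_eq_one_iff_eq_inv, inv_inv] at hx1
    exact hx1
  refine ⟨b, hbs, hbt, ?_, ?_⟩
  · rw [← hwd]; exact hz
  · intro u hu1 hu2
    have hzw : z = b * w := by rw [← hwd]; exact hz
    have hz1 : geo cs z (ee s) ≤ 0 := (geo_nonpos_iff cs z s).2 hs
    have hz2 : geo cs z (ee t) ≤ 0 := (geo_nonpos_iff cs z t).2 ht
    -- - z e_i is not an inversion of u
    have notin : ∀ i, geo cs z (ee i) ≤ 0 → WLe cs u (z * cs.simple i) →
        0 ≤ geo cs u⁻¹ (- geo cs z (ee i)) := by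
      intro i hi hui
      have hr : IsRt cs (- geo cs z (ee i)) := hB.rt_neg _ (hB.rt_geo _ _ (hB.rt_ee i))
      rcases hB.rt_sign _ (hB.rt_geo u⁻¹ _ hr) with h | h
      · exact h
      · exfalso
        have h1 := (hW1 _ _).1 hui _ hr (neg_nonneg.2 hi) h
        rw [mul_inv_rev, cs.inv_simple, map_mul, Module.End.mul_apply, map_neg, geo_inv_apply,
          map_neg, geo_simple, sg_ee_self, neg_neg] at h1
        exact ee_ne_zero i (le_antisymm h1 (ee_nonneg i))
    have n1 := notin s hz1 hu1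
    have n2 := notin t hz2 hu2
    -- images
    obtain ⟨j1, j2, -, -⟩ := (hP s t hst w hwD).2 k3 k4
    have c1 : - geo cs z (ee s) = geo cs b (- geo cs w (ee s)) := by
      rw [map_neg, ← Module.End.mul_apply, ← map_mul, ← hzw]
    have c2 : - geo cs z (ee t) = geo cs b (- geo cs w (ee t)) := by
      rw [map_neg, ← Module.End.mul_apply, ← map_mul, ← hzw]
    have hne : - geo cs w (ee s) ≠ - geo cs w (ee t) := by
      intro h
      have := geo_injective_apply cs w (neg_injective h)
      have h2 := congrFun this s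
      rw [ee_apply_self, ee_apply_ne hst] at h2
      exact one_ne_zero h2
    have hboth : 0 ≤ geo cs u⁻¹ (geo cs b (ee s)) ∧ 0 ≤ geo cs u⁻¹ (geo cs b (ee t)) := by
      rw [c1] at n1
      rw [c2] at n2
      rcases j1 with h1 | h1 <;> rcases j2 with h2 | h2
      · exact absurd (h1.trans h2.symm) hne
      · rw [h1] at n1; rw [h2] at n2; exact ⟨n1, n2⟩
      · rw [h1] at n1; rw [h2] at n2; exact ⟨n2, n1⟩
      · exact absurd (h1.trans h2.symm) hne
    rw [hW1]
    intro β hβ hβ0 hinv
    have hzs : WLe cs (z * cs.simple s) z := by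
      have e : z = (z * cs.simple s) * cs.simple s := by
        rw [cs.simple_mul_simple_cancel_right]
      have := wle_step cs (z * cs.simple s) s (by
        rw [← e]
        rcases cs.length_mul_simple z s with h2 | h2 <;> omega)
      rwa [← e] at this
    have huz : WLe cs u z := hW3 _ _ _ hu1 hzs
    have hzβ : geo cs z⁻¹ β ≤ 0 := (hW1 _ _).1 huz β hβ hβ0 hinv
    rw [hzw] at hzβ
    rcases inv_alt cs hB hP hA b hst hM (M s t) le_rfl β hβ hzβ with h | ⟨p, q, hp, hq, hpq⟩
    · exact h
    · exfalso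
      have h1 : 0 ≤ geo cs u⁻¹ β := by
        rw [hpq, map_add, map_smul, map_smul]
        exact add_nonneg (smul_nonneg hp hboth.1) (smul_nonneg hq hboth.2)
      exact hB.rt_ne _ (hB.rt_geo u⁻¹ _ hβ) (le_antisymm hinv h1)

/-- SC-POLY -/
theorem poly (hB : BaseF cs) (hW : S_WEAK cs) (hP : S_PLANE cs) (hA : S_ALTF cs) : S_POLY cs :=
  ⟨fun b s t hst hM hs ht => poly1 cs hB hW hP hA b s t hst hM hs ht,
    fun z s t hst hM hs ht => poly2 cs hB hW hP hA z s t hst hM hs ht⟩

end Pool.Agent.W154.SC
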